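import Pool.Agent.Helper80_Bent.Final

/-!
An upper bound for the number of bent functions in `n` variables (`n` even), which refutes the
conjectured lower bound `2^(2^(n-2) + C(n,n/2)/4)` for all large even `n`.
-/

set_option autoImplicit false

namespace Pool.Agent.Results.MP_c08ec8_co.BentCountUpper

open Pool.Agent.Helper80Bent

/-- For every even `n ≥ 26` the number of bent functions in `n` variables is at most
`2^((130655/524288) * 2^n + 2719 * C(n,n/2))`, and for even `n ≥ 2 * 10^13` it is less than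
`2^(2^(n-2))`. -/
theorem result (n : ℕ) (hn : Even n) (h26 : 26 ≤ n) :
    ((Nat.card {f : (Fin n → ZMod 2) → ZMod 2 //
        ∀ a : Fin n → ZMod 2, (∑ x : Fin n → ZMod 2,
          (-1 : ℤ) ^ ((f x + ∑ i, a i * x i).val)) ^ 2 = (2 : ℤ) ^ n} : ℕ) : ℝ)
      ≤ (2 : ℝ) ^ ((130655 / 524288 : ℝ) * (2 : ℝ) ^ n + 2719 * (n.choose (n / 2) : ℝ)) ∧
    (2 * 10 ^ 13 ≤ n →
      Nat.card {f : (Fin n → ZMod 2) → ZMod 2 //
        ∀ a : Fin n → ZMod 2, (∑ x : Fin n → ZMod 2,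
          (-1 : ℤ) ^ ((f x + ∑ i, a i * x i).val)) ^ 2 = (2 : ℤ) ^ n} < 2 ^ (2 ^ (n - 2))) := by
  obtain ⟨h, rfl⟩ : ∃ h, n = 2 * h := by
    obtain ⟨h, hh⟩ := hn
    exact ⟨h, by omega⟩
  have hcard : Nat.card {f : (Fin (2 * h) → ZMod 2) → ZMod 2 //
        ∀ a : Fin (2 * h) → ZMod 2, (∑ x : Fin (2 * h) → ZMod 2,
          (-1 : ℤ) ^ ((f x + ∑ i, a i * x i).val)) ^ 2 = (2 : ℤ) ^ (2 * h)}
      = Fintype.card (B (Fin (2 * h))) := by
    rw [← Nat.card_eq_fintype_card]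
    apply Nat.card_congr
    apply Equiv.subtypeEquivRight
    intro f
    unfold IsBent
    rw [Fintype.card_fin]
    rfl
  have h4 : (2 * h).choose (2 * h / 2) = Nat.centralBinom h := by
    rw [Nat.mul_div_cancel_left h (by norm_num)]
    rfl
  rw [hcard, h4]
  have hl : 0 < Real.log 2 := Real.log_pos (by norm_num)
  have hmain : (Fintype.card (B (Fin (2 * h))) : ℝ)
      ≤ (2 : ℝ) ^ ((130655 / 524288 : ℝ) * (2 : ℝ) ^ (2 * h) + 2719 * (Nat.centralBinom h : ℝ)) := by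
    by_cases hne : Nonempty (B (Fin (2 * h)))
    · have hpos : (0 : ℝ) < (Fintype.card (B (Fin (2 * h))) : ℝ) := by
        exact_mod_cast Fintype.card_pos
      rw [← Real.log_le_log_iff hpos (by positivity), Real.log_rpow (by norm_num)]
      exact log_card_le (ι := Fin (2 * h)) (h := h) (Fintype.card_fin _) (by omega)
    · rw [not_nonempty_iff] at hne
      rw [Fintype.card_eq_zero]
      simp only [Nat.cast_zero]
      positivity
  refine ⟨hmain, fun hbig => ?_⟩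
  have h2 := centralBinom_sq h
  have h3 : ((2 * h + 1 : ℕ) : ℝ) * (Nat.centralBinom h : ℝ) ^ 2 ≤ ((2 : ℝ) ^ (2 * h)) ^ 2 := by
    have : ((2 : ℝ) ^ (2 * h)) ^ 2 = 16 ^ h := by
      rw [← pow_mul, mul_comm (2 * h) 2, ← mul_assoc, pow_mul]
      norm_num
    rw [this]
    exact_mod_cast h2
  have h5 : (2 * 10 ^ 13 : ℝ) ≤ ((2 * h + 1 : ℕ) : ℝ) := by
    have : 2 * 10 ^ 13 ≤ 2 * h + 1 := by omega
    exact_mod_cast this
  have h6 : (4 * 10 ^ 6 * (Nat.centralBinom h : ℝ)) ^ 2 ≤ ((2 : ℝ) ^ (2 * h)) ^ 2 := by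
    refine le_trans ?_ h3
    rw [mul_pow]
    apply mul_le_mul_of_nonneg_right _ (by positivity)
    refine le_trans ?_ h5
    norm_num
  have h7 : 4 * 10 ^ 6 * (Nat.centralBinom h : ℝ) ≤ (2 : ℝ) ^ (2 * h) :=
    le_of_sq_le_sq h6 (by positivity)
  have h8 : (0 : ℝ) < (Nat.centralBinom h : ℝ) := by exact_mod_cast Nat.centralBinom_pos h
  have h9 : (130655 / 524288 : ℝ) * (2 : ℝ) ^ (2 * h) + 2719 * (Nat.centralBinom h : ℝ)
      < (2 : ℝ) ^ (2 * h) / 4 := by linarith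
  have h10 : (2 : ℝ) ^ (2 * h) / 4 = ((2 ^ (2 * h - 2) : ℕ) : ℝ) := by
    obtain ⟨m, hm⟩ : ∃ m, 2 * h = m + 2 := ⟨2 * h - 2, by omega⟩
    rw [hm, Nat.add_sub_cancel, pow_add]
    push_cast
    norm_num
  have h11 : (Fintype.card (B (Fin (2 * h))) : ℝ) < (2 : ℝ) ^ ((2 ^ (2 * h - 2) : ℕ) : ℝ) := by
    refine lt_of_le_of_lt hmain ?_
    rw [← h10]
    exact Real.rpow_lt_rpow_of_exponent_lt (by norm_num) h9
  rw [Real.rpow_natCast] at h11
  exact_mod_cast h11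

end Pool.Agent.Results.MP_c08ec8_co.BentCountUpper
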